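import Pool.Agent.V7H41.CC.Spec

set_option autoImplicit false

/-! (CORE) of project CC: from words to permutations. -/

open Finset

namespace Pool.Agent.V7H37.CC

open Pool.Agent.V7H41.CC

/-- the beginning of block `j` -/
def zz {m : ℕ} (g : Fin m → ℕ) (j : ℕ) : ℕ := ∑ i ∈ univ.filter (fun i : Fin m => (i : ℕ) < j), g i

lemma zz_zero {m : ℕ} (g : Fin m → ℕ) : zz g 0 = 0 := by
  simp [zz]

lemma zz_top {m : ℕ} (g : Fin m → ℕ) : zz g m = ∑ i, g i := by
  unfold zz
  congr 1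
  ext i
  simp

lemma zz_mono {m : ℕ} (g : Fin m → ℕ) : Monotone (zz g) := by
  intro a b hab
  unfold zz
  apply sum_le_sum_of_subset
  intro i hi
  rw [mem_filter] at hi ⊢
  exact ⟨hi.1, by omega⟩

lemma zz_succ {m : ℕ} (g : Fin m → ℕ) (j : Fin m) : zz g (j + 1) = zz g j + g j := by
  unfold zz
  have : univ.filter (fun i : Fin m => (i : ℕ) < j + 1) =
      insert j (univ.filter (fun i : Fin m => (i : ℕ) < j)) := by
    ext i
    simp only [mem_filter, mem_univ, true_and, mem_insert, Fin.ext_iff]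
    omega
  rw [this, sum_insert (by simp)]
  ring

/-- the block of a value -/
lemma ex_blk {m : ℕ} (g : Fin m → ℕ) (v : ℕ) (hv : v < ∑ i, g i) :
    ∃ j : Fin m, zz g j ≤ v ∧ v < zz g (j + 1) := by
  classical
  have hex : ∃ k, v < zz g k := ⟨m, by rwa [zz_top]⟩
  have h1 := Nat.find_spec hex
  have h0 : Nat.find hex ≠ 0 := by
    intro h
    rw [h, zz_zero] at h1
    omega
  have h2 : Nat.find hex ≤ m := Nat.find_min' hex (by rwa [zz_top])
  refine ⟨⟨Nat.find hex - 1, by omega⟩, ?_, ?_⟩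
  · have := Nat.find_min hex (m := Nat.find hex - 1) (by omega)
    simpa using this
  · have h3 : Nat.find hex - 1 + 1 = Nat.find hex := by omega
    simp only [h3]
    exact h1

lemma blk_unique {m : ℕ} (g : Fin m → ℕ) (v : ℕ) (i j : ℕ) (hi : zz g i ≤ v)
    (hi' : v < zz g (i + 1)) (hj : zz g j ≤ v) (hj' : v < zz g (j + 1)) : i = j := by
  by_contra h
  rcases lt_or_gt_of_ne h with h | h
  · have := zz_mono g (show i + 1 ≤ j by omega)
    omega
  · have := zz_mono g (show j + 1 ≤ i by omega)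
    omega

/-- the values of the pairs are in the blocks given by `g` -/
def Cmp {N : ℕ} (σ : Equiv.Perm (Fin N)) {m : ℕ} (g : Fin m → ℕ) (F : Fin m → Fin N × Fin N) :
    Prop :=
  ∀ j : Fin m, (zz g j ≤ σ (F j).1 ∧ (σ (F j).1 : ℕ) < zz g (j + 1)) ∧
    (zz g j ≤ σ (F j).2 ∧ (σ (F j).2 : ℕ) < zz g (j + 1))

lemma word_step (hW : S_WORD) {N m : ℕ} (hm : 0 < m) (σ : Equiv.Perm (Fin N)) (g : Fin m → ℕ)
    (hg : ∑ i, g i = N) :
    m.factorial * ∏ j, (g j - m) ^ 2 ≤
      {F : Fin m → Fin N × Fin N | IsT σ m F ∧ Cmp σ g F}.ncard * (2 * m).factorial := by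
  classical
  have hex : ∀ x : ℕ, ∃ j : Fin m, ∀ hx : x < N, zz g j ≤ σ ⟨x, hx⟩ ∧
      (σ ⟨x, hx⟩ : ℕ) < zz g (j + 1) := by
    intro x
    by_cases hx : x < N
    · obtain ⟨j, h⟩ := ex_blk g (σ ⟨x, hx⟩ : ℕ) (by rw [hg]; exact (σ ⟨x, hx⟩).2)
      exact ⟨j, fun _ => h⟩
    · exact ⟨⟨0, hm⟩, fun h => absurd h hx⟩
  choose w hw using hex
  have hcard : ∀ j : Fin m, ((range N).filter (fun x => w x = j)).card = g j := by
    intro j
    have hle : zz g (j + 1) ≤ N := by
      rw [← hg, ← zz_top]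
      exact zz_mono g (by omega)
    have hs := zz_succ g j
    have h1 : (Finset.Ico (zz g j) (zz g (j + 1))).card = g j := by
      rw [Nat.card_Ico]; omega
    rw [← h1]
    symm
    refine Finset.card_bij (fun v hv => ((σ.symm ⟨v, lt_of_lt_of_le (Finset.mem_Ico.1 hv).2 hle⟩ :
      Fin N) : ℕ)) ?_ ?_ ?_
    · intro v hv
      rw [mem_filter, mem_range]
      refine ⟨Fin.is_lt _, ?_⟩
      rw [mem_Ico] at hv
      have h2 := hw ((σ.symm ⟨v, lt_of_lt_of_le hv.2 hle⟩ : Fin N) : ℕ) (Fin.is_lt _)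
      simp only [Fin.eta, Equiv.apply_symm_apply] at h2
      exact Fin.ext (blk_unique g v _ _ h2.1 h2.2 hv.1 hv.2)
    · intro v hv v' hv' h
      have h2 := σ.symm.injective (Fin.ext h)
      simpa using h2
    · intro x hx
      rw [mem_filter, mem_range] at hx
      obtain ⟨hx1, hx2⟩ := hx
      have h2 := hw x hx1
      rw [hx2] at h2
      refine ⟨σ ⟨x, hx1⟩, mem_Ico.2 h2, ?_⟩
      simp
  have h1 := hW m w N
  simp only [hcard] at h1
  refine h1.trans (Nat.mul_le_mul_right _ ?_)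
  -- the injection
  set Φ : (Fin m → Fin N × Fin N) → (Fin m → ℕ × ℕ) := fun F j => (((F j).1 : ℕ), ((F j).2 : ℕ))
    with hΦ
  have hsub : {f | IsW w N f} ⊆ Φ '' {F : Fin m → Fin N × Fin N | IsT σ m F ∧ Cmp σ g F} := by
    rintro f ⟨hf1, hf2⟩
    have ha : ∀ j, (f j).1 < N := fun j => (hf1 j).1.trans (hf1 j).2.1
    have hb : ∀ j, (f j).2 < N := fun j => (hf1 j).2.1
    have hc : Cmp σ g (fun j => (⟨(f j).1, ha j⟩, ⟨(f j).2, hb j⟩)) := by
      intro j
      have h3 := hw _ (ha j)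
      rw [(hf1 j).2.2.1] at h3
      have h4 := hw _ (hb j)
      rw [(hf1 j).2.2.2] at h4
      exact ⟨h3, h4⟩
    refine ⟨fun j => (⟨(f j).1, ha j⟩, ⟨(f j).2, hb j⟩), ⟨⟨?_, ?_, ?_⟩, hc⟩, ?_⟩
    · intro j
      exact (hf1 j).1
    · intro i j hij
      exact hf2 i j hij
    · intro i j hij
      have hmn := zz_mono g (show (i : ℕ) + 1 ≤ j from hij)
      obtain ⟨⟨_, b1⟩, ⟨_, b2⟩⟩ := hc i
      obtain ⟨⟨c1, _⟩, ⟨c2, _⟩⟩ := hc j
      refine ⟨?_, ?_, ?_, ?_⟩ <;> rw [Fin.lt_def] <;> omega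
    · rfl
  exact (Set.ncard_le_ncard hsub (Set.toFinite _)).trans (Set.ncard_image_le (Set.toFinite _))

/-- AM-GM -/
lemma amgm (k : ℕ) (x : Fin k → ℕ) : k ^ k * ∏ j, x j ≤ (∑ j, x j) ^ k := by
  rcases Nat.eq_zero_or_pos k with rfl | hk
  · simp
  have h := Real.geom_mean_le_arith_mean (univ : Finset (Fin k)) (fun _ => (1 : ℝ))
    (fun j => (x j : ℝ)) (fun _ _ => zero_le_one) (by simp; exact hk) (fun _ _ => Nat.cast_nonneg _)
  simp only [Real.rpow_one, sum_const, card_univ, Fintype.card_fin, nsmul_eq_mul, mul_one,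
    one_mul] at h
  have hkR : (0 : ℝ) < k := by exact_mod_cast hk
  have hp : (0 : ℝ) ≤ ∏ j, (x j : ℝ) := prod_nonneg fun _ _ => Nat.cast_nonneg _
  have h2 : (∏ j, (x j : ℝ)) ≤ ((∑ j, (x j : ℝ)) / k) ^ k := by
    calc (∏ j, (x j : ℝ)) = ((∏ j, (x j : ℝ)) ^ ((k : ℝ)⁻¹)) ^ k := by
          rw [← Real.rpow_natCast, ← Real.rpow_mul hp, inv_mul_cancel₀ hkR.ne', Real.rpow_one]
      _ ≤ _ := pow_le_pow_left₀ (Real.rpow_nonneg hp _) h k
  rw [div_pow, le_div_iff₀ (by positivity)] at h2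
  have h3 : ((k ^ k * ∏ j, x j : ℕ) : ℝ) ≤ (((∑ j, x j) ^ k : ℕ) : ℝ) := by
    push_cast
    linarith
  exact_mod_cast h3

lemma tele (k N : ℕ) (A : Fin (k + 1) → ℕ) (hA : ∀ j : Fin k, A j.castSucc ≤ A j.succ)
    (hN : A (Fin.last k) ≤ N) : ∑ j : Fin k, (A j.succ - A j.castSucc) ≤ N := by
  refine le_trans ?_ hN
  clear hN
  induction k with
  | zero => simp
  | succ k ih =>
    rw [Fin.sum_univ_castSucc]
    have h1 := ih (fun j => A j.castSucc) (fun j => hA j.castSucc)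
    simp only [Fin.succ_castSucc] at h1 ⊢
    have h2 := hA (Fin.last k)
    have h3 : (Fin.last k).succ = Fin.last (k + 1) := rfl
    rw [h3] at h2 ⊢
    omega

/-- the number of compatible compositions -/
lemma few_g {N k : ℕ} (σ : Equiv.Perm (Fin N)) (F : Fin (k + 1) → Fin N × Fin N)
    (hF : IsT σ (k + 1) F) (G : Finset (Fin (k + 1) → ℕ)) (hG : ∀ g ∈ G, ∑ i, g i = N)
    (hG' : ∀ g ∈ G, Cmp σ g F) : G.card * k ^ k ≤ N ^ k := by
  classical
  set a : Fin (k + 1) → ℕ := fun j => max (σ (F j).1 : ℕ) (σ (F j).2 : ℕ) with ha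
  set b : Fin (k + 1) → ℕ := fun j => min (σ (F j).1 : ℕ) (σ (F j).2 : ℕ) with hb
  have h1 : G.card ≤ ∏ j : Fin k, (b j.succ - a j.castSucc) := by
    have h2 : (Fintype.piFinset (fun j : Fin k => Finset.Ioc (a j.castSucc) (b j.succ))).card =
        ∏ j : Fin k, (b j.succ - a j.castSucc) := by
      rw [Fintype.card_piFinset]
      simp
    rw [← h2]
    refine Finset.card_le_card_of_injOn (fun g (j : Fin k) => zz g (j + 1)) ?_ ?_
    · intro g hg
      rw [Finset.mem_coe, Fintype.mem_piFinset]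
      intro j
      have h3 := hG' g hg j.castSucc
      have h4 := hG' g hg j.succ
      simp only [Fin.val_castSucc, Fin.val_succ] at h3 h4
      rw [mem_Ioc]
      simp only [ha, hb]
      omega
    · intro g hg g' hg' h
      have hz : ∀ j : ℕ, j ≤ k + 1 → zz g j = zz g' j := by
        intro j hj
        rcases Nat.eq_zero_or_pos j with rfl | hj0
        · rw [zz_zero, zz_zero]
        rcases Nat.lt_or_ge j (k + 1) with h5 | h5
        · have h6 := congrFun h ⟨j - 1, by omega⟩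
          have h7 : j - 1 + 1 = j := by omega
          simp only [h7] at h6
          exact h6
        · have : j = k + 1 := by omega
          subst this
          rw [zz_top, zz_top, hG g hg, hG g' hg']
      funext j
      have h5 := zz_succ g j
      have h6 := zz_succ g' j
      have h7 := hz j (by omega)
      have h8 := hz (j + 1) (by omega)
      omega
  have h2 : ∑ j : Fin k, (b j.succ - a j.castSucc) ≤ N := by
    refine le_trans (sum_le_sum (g := fun j : Fin k => a j.succ - a j.castSucc) fun j _ => ?_)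
      (tele k N a ?_ ?_)
    · have : b j.succ ≤ a j.succ := min_le_max
      omega
    · intro j
      obtain ⟨h3, h4, h5, h6⟩ := hF.2.2 j.castSucc j.succ (Fin.castSucc_lt_succ)
      rw [Fin.lt_def] at h3 h4 h5 h6
      simp only [ha]
      omega
    · have h3 := (σ (F (Fin.last k)).1).2
      have h4 := (σ (F (Fin.last k)).2).2
      simp only [ha]
      omega
  calc G.card * k ^ k ≤ (∏ j : Fin k, (b j.succ - a j.castSucc)) * k ^ k :=
        Nat.mul_le_mul_right _ h1
    _ = k ^ k * ∏ j : Fin k, (b j.succ - a j.castSucc) := by ring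
    _ ≤ _ := amgm k _
    _ ≤ N ^ k := Nat.pow_le_pow_left h2 k

theorem t_CORE : S_WORD → S_COMP → S_CORE := by
  classical
  intro hW hC N m σ hm
  obtain ⟨k, rfl⟩ : ∃ k, m = k + 1 := ⟨m - 1, by omega⟩
  set P := Finset.piAntidiag (univ : Finset (Fin (k + 1))) N with hP
  have hmem : ∀ g ∈ P, ∑ i, g i = N := by
    intro g hg
    exact (Finset.mem_piAntidiag.1 hg).1
  set T : Finset (Fin (k + 1) → Fin N × Fin N) := univ.filter (fun F => IsT σ (k + 1) F) with hT
  have hTc : {f | IsT σ (k + 1) f}.ncard = T.card := by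
    rw [Set.ncard_eq_toFinset_card']
    congr 1
    ext F
    simp [hT]
  have hSg : ∀ g, {F : Fin (k + 1) → Fin N × Fin N | IsT σ (k + 1) F ∧ Cmp σ g F}.ncard =
      (T.filter (fun F => Cmp σ g F)).card := by
    intro g
    rw [Set.ncard_eq_toFinset_card']
    congr 1
    ext F
    simp [hT]
  have h1 := hC (k + 1) N (by omega)
  have h2 : ∀ g ∈ P, (k + 1).factorial * ∏ j, (g j - (k + 1)) ^ 2 ≤
      (T.filter (fun F => Cmp σ g F)).card * (2 * (k + 1)).factorial := by
    intro g hg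
    rw [← hSg]
    exact word_step hW (by omega) σ g (hmem g hg)
  have h3 : ∑ g ∈ P, (T.filter (fun F => Cmp σ g F)).card =
      ∑ F ∈ T, (P.filter (fun g => Cmp σ g F)).card := by
    simp only [Finset.card_filter]
    exact Finset.sum_comm
  have h4 : ∀ F ∈ T, (P.filter (fun g => Cmp σ g F)).card * k ^ k ≤ N ^ k := by
    intro F hF
    refine few_g σ F (mem_filter.1 hF).2 _ (fun g hg => hmem g (mem_filter.1 hg).1)
      (fun g hg => (mem_filter.1 hg).2)
  rw [hTc, Nat.add_sub_cancel]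
  calc (k + 1).factorial * 2 ^ (k + 1) *
        (N - (k + 1) ^ 2 + (k + 1) - 1).choose (3 * (k + 1) - 1) * k ^ k
      = (k + 1).factorial * (2 ^ (k + 1) *
        (N - (k + 1) ^ 2 + (k + 1) - 1).choose (3 * (k + 1) - 1)) * k ^ k := by ring
    _ ≤ (k + 1).factorial * (∑ g ∈ P, ∏ j, (g j - (k + 1)) ^ 2) * k ^ k := by
        exact Nat.mul_le_mul_right _ (Nat.mul_le_mul_left _ h1)
    _ = (∑ g ∈ P, (k + 1).factorial * ∏ j, (g j - (k + 1)) ^ 2) * k ^ k := by
        rw [Finset.mul_sum]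
    _ ≤ (∑ g ∈ P, (T.filter (fun F => Cmp σ g F)).card * (2 * (k + 1)).factorial) * k ^ k := by
        exact Nat.mul_le_mul_right _ (sum_le_sum h2)
    _ = (∑ F ∈ T, (P.filter (fun g => Cmp σ g F)).card * k ^ k) * (2 * (k + 1)).factorial := by
        rw [← Finset.sum_mul, h3, ← Finset.sum_mul]
        ring
    _ ≤ (∑ F ∈ T, N ^ k) * (2 * (k + 1)).factorial := by
        exact Nat.mul_le_mul_right _ (sum_le_sum h4)
    _ = T.card * ((2 * (k + 1)).factorial * N ^ k) := by
        rw [Finset.sum_const, smul_eq_mul]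
        ring

end Pool.Agent.V7H37.CC
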